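import Pool.Agent.Q211.LV.Nr

set_option autoImplicit false

/-! # Project LV, jobs A and B: zeros and large values of the prime sum -/

open Filter Topology Finset MeasureTheory

namespace Pool.Agent.Q211.LV

open Pool.Agent.Q240.LV
open Pool.Agent.Y23 (Zt mu Lg)
open Pool.Agent.Q240.SD (Ht)

lemma log_ht1 {a C t : ℝ} (ha : 0 ≤ a) (hC : 1 ≤ C) (ht : |t| ≤ Ht C a + 1) :
    Real.log (3 + |t|) ≤ 2 + 2 * a := by
  have h1 : 2 * a / C ≤ 2 * a := div_le_self (by linarith) hC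
  have h2 : Ht C a ≤ Real.exp (2 * a) := Real.exp_le_exp.2 h1
  have h3 : 1 ≤ Real.exp (2 * a) := Real.one_le_exp (by linarith)
  have h4 : 3 + |t| ≤ 5 * Real.exp (2 * a) := by linarith
  have h5 : (5 : ℝ) ≤ Real.exp 2 := by
    have := Real.quadratic_le_exp_of_nonneg (show (0 : ℝ) ≤ 2 by norm_num)
    linarith
  have h7 : 3 + |t| ≤ Real.exp (2 + 2 * a) := by
    rw [Real.exp_add]
    refine h4.trans (mul_le_mul_of_nonneg_right h5 (Real.exp_pos _).le)
  have h8 : 0 < 3 + |t| := by positivity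
  exact (Real.log_le_iff_le_exp h8).2 h7

lemma gap {K δ a η : ℝ} (hK : 0 < K) (hδ : 0 < δ) (ha1 : 1 ≤ a) (ha : 8 * (K + 1) / δ ^ 2 < a)
    (hη : 0 ≤ η) : Real.exp (2 * a * η) + K * (2 + 2 * a) ≤ Real.exp (2 * a * (η + δ / 2)) := by
  have h1 := big (show 0 < K + 1 by linarith) hδ ha1 ha
  have h2 : Real.exp (2 * a * (η + δ / 2)) = Real.exp (2 * a * η) * Real.exp (δ * a) := by
    rw [← Real.exp_add]
    congr 1
    ring
  have h3 : 1 ≤ Real.exp (2 * a * η) := Real.one_le_exp (by positivity)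
  rw [h2]
  have h4 : 1 + K * (2 + 2 * a) ≤ Real.exp (δ * a) := by nlinarith
  have h5 : 0 ≤ (Real.exp (2 * a * η) - 1) * (K * (2 + 2 * a)) :=
    mul_nonneg (by linarith) (by positivity)
  have h6 := mul_le_mul_of_nonneg_left h4 (Real.exp_pos (2 * a * η)).le
  nlinarith

/-- A -/
theorem a (h1 : S_Lo) (h2 : S_Ex) : S_A := by
  intro δ l hδ hl hl1
  obtain ⟨K, hK, hex⟩ := h2
  obtain ⟨C0, hC0⟩ := h1 (min δ (1 / 2)) l (lt_min hδ (by norm_num)) (min_le_right _ _) hl hl1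
  refine ⟨max C0 1, fun C hC => ?_⟩
  obtain ⟨A, hA⟩ := hC0 C ((le_max_left _ _).trans hC)
  have hC1 : 1 ≤ C := (le_max_right _ _).trans hC
  refine ⟨max A (max (2 / l) (max 1 (8 * (K + 1) / δ ^ 2 + 1))), fun a ha ρ hρ him => ?_⟩
  have ha0 : A ≤ a := (le_max_left _ _).trans ha
  have ha' := (le_max_right _ _).trans ha
  have ha1 : 2 / l ≤ a := (le_max_left _ _).trans ha'
  have ha'' := (le_max_right _ _).trans ha'
  have ha2 : 1 ≤ a := (le_max_left _ _).trans ha''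
  have ha3 : 8 * (K + 1) / δ ^ 2 < a := by
    have := (le_max_right _ _).trans ha''
    linarith
  have hs : 2 ≤ l * a := by
    rw [div_le_iff₀ hl] at ha1
    linarith
  obtain ⟨t, b, ht, hb1, hb2, hS⟩ := hA a ha0 ρ (by linarith) him
  set d : ℝ := min δ (1 / 2) with hd
  have hd0 : 0 < d := lt_min hδ (by norm_num)
  have hd1 : d ≤ 1 / 2 := min_le_right _ _
  have hd2 : d ≤ δ := min_le_left _ _
  have hu1 : a ≤ 2 * b := by nlinarith
  have hu2 : 2 * b ≤ 2 * a := by nlinarith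
  refine ⟨t, 2 * b, ht, hu1, hu2, ?_⟩
  have hsu : l * a ≤ 2 * b := by nlinarith
  have h3 := (abs_le.1 (hex (l * a) t (2 * b) hs hsu)).1
  have h4 : |t| ≤ Ht C a + 1 := by
    have := abs_sub_abs_le_abs_sub t (ρ : ℂ).im
    linarith
  have h5 : K * Real.log (3 + |t|) ≤ K * (2 + 2 * a) :=
    mul_le_mul_of_nonneg_left (log_ht1 (by linarith) hC1 h4) hK.le
  have h6 := gap hK hδ ha2 ha3 (show 0 ≤ (ρ : ℂ).re - 1 / 2 - δ by linarith)
  have h7 : Real.exp (2 * a * ((ρ : ℂ).re - 1 / 2 - δ + δ / 2)) ≤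
      Real.exp (2 * a * ((ρ : ℂ).re - 1 / 2 - d / 2)) := by
    refine Real.exp_le_exp.2 (mul_le_mul_of_nonneg_left ?_ (by linarith))
    linarith
  linarith

/-- B -/
theorem b (h2 : S_Ex) : S_B := by
  intro δ hδ
  obtain ⟨K, hK, hex⟩ := h2
  obtain ⟨l0, hl0, hnr⟩ := nr (δ / 2) (by linarith)
  refine ⟨min l0 1, lt_min hl0 one_pos, min_le_right _ _, fun l hl hl1 => ?_⟩
  obtain ⟨R, C0, hR, hC0⟩ := hnr l hl (hl1.trans (min_le_left _ _))
  have hl2 : l ≤ 1 := hl1.trans (min_le_right _ _)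
  refine ⟨R, max C0 1, hR, fun C hC => ?_⟩
  obtain ⟨A, hA⟩ := hC0 C ((le_max_left _ _).trans hC)
  have hC1 : 1 ≤ C := (le_max_right _ _).trans hC
  refine ⟨max A (max (2 / l) (max 1 (8 * (K + 1) / δ ^ 2 + 1))), fun a t u η ha ht hau hua hη hE => ?_⟩
  have ha0 : A ≤ a := (le_max_left _ _).trans ha
  have ha' := (le_max_right _ _).trans ha
  have ha1 : 2 / l ≤ a := (le_max_left _ _).trans ha'
  have ha'' := (le_max_right _ _).trans ha'
  have ha2 : 1 ≤ a := (le_max_left _ _).trans ha''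
  have ha3 : 8 * (K + 1) / δ ^ 2 < a := by
    have := (le_max_right _ _).trans ha''
    linarith
  have hs : 2 ≤ l * a := by
    rw [div_le_iff₀ hl] at ha1
    linarith
  have hsu : l * a ≤ u := by nlinarith
  have h3 := (abs_le.1 (hex (l * a) t u hs hsu)).2
  have h5 : K * Real.log (3 + |t|) ≤ K * (2 + 2 * a) :=
    mul_le_mul_of_nonneg_left (log_ht1 (by linarith) hC1 (by linarith)) hK.le
  have h6 := gap hK hδ ha2 ha3 (show 0 ≤ η - δ / 2 by linarith)
  have h7 : η - δ / 2 + δ / 2 = η := by ring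
  rw [h7] at h6
  obtain ⟨ρ, h8, h9⟩ := hA a t u (η - δ / 2) ha0 ht hau hua (by linarith) (by linarith)
  exact ⟨ρ, h8, by linarith⟩

end Pool.Agent.Q211.LV
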