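import Pool.Agent.Q240.LV.Stm
import Pool.Agent.Q31.SD.Dn

set_option autoImplicit false

/-! # Project LV, job Dn: the equivalence with density theorems -/

open Filter Topology Finset MeasureTheory

namespace Pool.Agent.Q211.LV

open Pool.Agent.Q240.LV
open Pool.Agent.Y23 (Zt mu Lg IsZ)
open Pool.Agent.Q240.SD (Ht Zr AtMost)
open Pool.Agent.Q31.SD (near Ht_pos Ht_tendsto Ht_log card_all mem_Zr)

/-- separated points of an interval -/
theorem sep_card {F : Finset ℝ} {c R : ℝ} (hF : ∀ x ∈ F, ∀ y ∈ F, x ≠ y → 1 ≤ |x - y|)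
    (h : ∀ x ∈ F, |c - x| ≤ R) : F.card ≤ ⌊2 * R⌋₊ + 1 := by
  classical
  have h1 : (F : Set ℝ).InjOn fun x => ⌊x - (c - R)⌋₊ := by
    intro x hx y hy hxy
    by_contra hne
    have h2 := hF x hx y hy hne
    have h3 := abs_le.1 (h x hx)
    have h4 := abs_le.1 (h y hy)
    have h5 : 0 ≤ x - (c - R) := by linarith
    have h6 : 0 ≤ y - (c - R) := by linarith
    have h7 := Nat.floor_le h5
    have h8 := Nat.lt_floor_add_one (x - (c - R))
    have h9 := Nat.floor_le h6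
    have h10 := Nat.lt_floor_add_one (y - (c - R))
    simp only at hxy
    rw [hxy] at h7 h8
    have h11 : |x - y| < 1 := by
      rw [abs_lt]
      constructor <;> linarith
    linarith
  rw [← Finset.card_image_of_injOn h1]
  have h2 : F.image (fun x => ⌊x - (c - R)⌋₊) ⊆ Finset.range (⌊2 * R⌋₊ + 1) := by
    intro n hn
    obtain ⟨x, hx, rfl⟩ := Finset.mem_image.1 hn
    have h3 := abs_le.1 (h x hx)
    rw [Finset.mem_range, Nat.lt_succ_iff]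
    exact Nat.floor_le_floor (by linarith)
  simpa using Finset.card_le_card h2

theorem fwd (h2 : S_B) {D : ℝ → ℝ} (hD : ContinuousOn D (Set.Ioc (1 / 2) 1))
    (hD0 : ∀ σ : ℝ, 1 / 2 < σ → σ ≤ 1 → 0 ≤ D σ)
    (h : ∀ σ e : ℝ, 1 / 2 < σ → σ ≤ 1 → 0 < e → ∃ T0 : ℝ, ∀ T : ℝ, T0 ≤ T → AtMost (Zr σ T) (T ^ (D σ + e)))
    {σ e : ℝ} (hσ : 1 / 2 < σ) (hσ1 : σ ≤ 1) (he : 0 < e) :
    ∃ l0 : ℝ, 0 < l0 ∧ ∀ l : ℝ, 0 < l → l ≤ l0 → ∃ C0 : ℝ, ∀ C : ℝ, C0 ≤ C → ∃ A : ℝ, ∀ a : ℝ, A ≤ a →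
      Few l C a (σ - 1 / 2) ((Ht C a) ^ (D σ + e)) := by
  classical
  obtain ⟨d, hd, hd'⟩ := near hD hσ hσ1 (show 0 < e / 4 by linarith)
  have hδ0 : 0 < d / 2 := by linarith
  obtain ⟨hs, hDs⟩ := hd' (d / 2) hδ0 (by linarith)
  set δ : ℝ := d / 2 with hδ
  have hDσ := hD0 σ hσ hσ1
  obtain ⟨l0, hl0, _, hB⟩ := h2 δ hδ0
  refine ⟨l0, hl0, fun l hl hll => ?_⟩
  obtain ⟨R, C0, hR, hC⟩ := hB l hl hll
  obtain ⟨T0, hT0⟩ := h (σ - δ) (e / 4) hs (by linarith) (by linarith)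
  refine ⟨max C0 1, fun C hCC => ?_⟩
  obtain ⟨A, hA⟩ := hC C ((le_max_left _ _).trans hCC)
  have hC1 : 0 < C := lt_of_lt_of_le one_pos ((le_max_right _ _).trans hCC)
  set K : ℝ := ((Pool.Agent.Y23.isZ_finite 0).toFinset.card : ℝ) with hK
  have hK0 : 0 ≤ K := Nat.cast_nonneg _
  set n : ℕ := ⌊2 * R⌋₊ + 1 with hn
  set q : ℝ := D σ + e / 2 with hq
  have hq0 : 0 < q := by linarith
  have hTt := Ht_tendsto hC1
  have hev : ∀ᶠ a in atTop, A ≤ a ∧ T0 ≤ Ht C a ∧ 1 ≤ Ht C a ∧ R ≤ Ht C a ∧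
      n * (2 * 2 ^ q + K) ≤ (Ht C a) ^ (e / 2) := by
    filter_upwards [eventually_ge_atTop A, hTt.eventually_ge_atTop T0, hTt.eventually_ge_atTop 1,
      hTt.eventually_ge_atTop R,
      ((tendsto_rpow_atTop (show 0 < e / 2 by linarith)).comp hTt).eventually_ge_atTop (n * (2 * 2 ^ q + K))]
      with a g1 g2 g3 g4 g5
    exact ⟨g1, g2, g3, g4, g5⟩
  obtain ⟨A1, hA1⟩ := eventually_atTop.1 hev
  refine ⟨A1, fun a ha F hsep hF => ?_⟩
  obtain ⟨g1, g2, g3, g4, g5⟩ := hA1 a ha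
  set T : ℝ := Ht C a with hT
  have hTp : 0 < T := Ht_pos C a
  have hz : ∀ t ∈ F, ∃ ρ : ℂ, IsZ ρ ∧ |ρ.im - t| ≤ R ∧ σ - δ ≤ ρ.re := by
    intro t ht
    obtain ⟨k1, u, k2, k3, k4⟩ := hF t ht
    obtain ⟨ρ, k5, k6⟩ := hA a t u (σ - 1 / 2) g1 k1 k2 k3 (by linarith) k4
    exact ⟨ρ, ρ.2, k5, by linarith⟩
  choose! z hz0 hz1 hz2 using hz
  have hcard1 : F.card ≤ n * (F.image z).card := by
    refine Finset.card_le_mul_card_image F n fun ρ _ => ?_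
    refine sep_card (c := ρ.im) (fun x hx y hy hxy => ?_) fun x hx => ?_
    · exact hsep x (Finset.mem_filter.1 hx).1 y (Finset.mem_filter.1 hy).1 hxy
    · have h3 := hz1 x (Finset.mem_filter.1 hx).1
      rw [(Finset.mem_filter.1 hx).2] at h3
      exact h3
  have hcard2 : ((F.image z).card : ℝ) ≤ 2 * (T + R) ^ (D (σ - δ) + e / 4) + K := by
    refine card_all (hT0 (T + R) (by linarith)) fun ρ hρ => ?_
    obtain ⟨t, ht, rfl⟩ := Finset.mem_image.1 hρ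
    refine ⟨hz0 t ht, hz2 t ht, ?_⟩
    have h3 := hz1 t ht
    have h4 := (hF t ht).1
    have h5 := abs_sub_abs_le_abs_sub (z t).im t
    linarith
  have hpow : (T + R) ^ (D (σ - δ) + e / 4) ≤ 2 ^ q * T ^ q := by
    rw [← Real.mul_rpow (by norm_num) hTp.le]
    have h3 : (T + R) ^ (D (σ - δ) + e / 4) ≤ (2 * T) ^ (D (σ - δ) + e / 4) := by
      refine Real.rpow_le_rpow (by linarith) (by linarith) ?_
      have := hD0 (σ - δ) hs (by linarith)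
      linarith
    refine h3.trans (Real.rpow_le_rpow_of_exponent_le (by linarith) (by linarith))
  have hTq : 1 ≤ T ^ q := Real.one_le_rpow g3 hq0.le
  have e3 : T ^ (D σ + e) = T ^ (e / 2) * T ^ q := by
    rw [← Real.rpow_add hTp]
    congr 1
    rw [hq]
    ring
  rw [e3]
  have hc1 : (F.card : ℝ) ≤ n * ((F.image z).card : ℝ) := by exact_mod_cast hcard1
  have hn0 : (0 : ℝ) ≤ n := Nat.cast_nonneg _
  calc (F.card : ℝ) ≤ n * ((F.image z).card : ℝ) := hc1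
    _ ≤ n * (2 * (2 ^ q * T ^ q) + K * T ^ q) := by
      refine mul_le_mul_of_nonneg_left ?_ hn0
      nlinarith
    _ = n * (2 * 2 ^ q + K) * T ^ q := by ring
    _ ≤ T ^ (e / 2) * T ^ q := mul_le_mul_of_nonneg_right g5 (by linarith)

theorem large {C K q e A1 A2 : ℝ} (hC : 0 < C) (hK : 0 < K) (he : 0 < e) :
    ∃ T0 : ℝ, ∀ T : ℝ, T0 ≤ T → 4 ≤ T ∧ A1 ≤ C * Real.log (T + 1) / 2 ∧ A2 ≤ C * Real.log (T + 1) / 2 ∧
      8 * K * 2 ^ q * Real.log (4 + T) ≤ T ^ (e / 2) := by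
  have h0 : Tendsto (fun T : ℝ => T + 1) atTop atTop := tendsto_atTop_add_const_right _ _ tendsto_id
  have ht : Tendsto (fun T : ℝ => C * Real.log (T + 1) / 2) atTop atTop := by
    have h : (fun T : ℝ => C * Real.log (T + 1) / 2) = fun T : ℝ => (C / 2) * Real.log (T + 1) := by
      funext T
      ring
    rw [h]
    exact (Real.tendsto_log_atTop.comp h0).const_mul_atTop (by positivity)
  have hev : ∀ᶠ T : ℝ in atTop, 4 ≤ T ∧ A1 ≤ C * Real.log (T + 1) / 2 ∧ A2 ≤ C * Real.log (T + 1) / 2 ∧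
      8 * K * 2 ^ q * Real.log (4 + T) ≤ T ^ (e / 2) := by
    filter_upwards [eventually_ge_atTop (4 : ℝ), ht.eventually_ge_atTop A1, ht.eventually_ge_atTop A2,
      (tendsto_rpow_atTop (show 0 < e / 4 by linarith)).eventually_ge_atTop (64 * K * 2 ^ q / e)]
      with T g1 g2 g3 g4
    refine ⟨g1, g2, g3, ?_⟩
    have hT : 0 < T := by linarith
    have h1 : Real.log (4 + T) ≤ 2 * Real.log T := by
      rw [← Real.log_rpow hT]
      refine Real.log_le_log (by linarith) ?_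
      rw [Real.rpow_two]
      nlinarith
    have h2 : Real.log T ≤ T ^ (e / 4) / (e / 4) := Real.log_le_rpow_div hT.le (by linarith)
    have h5 : T ^ (e / 2) = T ^ (e / 4) * T ^ (e / 4) := by
      rw [← Real.rpow_add hT]
      congr 1
      ring
    have h6 : 0 < T ^ (e / 4) := Real.rpow_pos_of_pos hT _
    have h7 : (0 : ℝ) < 2 ^ q := Real.rpow_pos_of_pos (by norm_num) _
    rw [h5]
    calc 8 * K * 2 ^ q * Real.log (4 + T) ≤ 8 * K * 2 ^ q * (2 * (T ^ (e / 4) / (e / 4))) :=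
        mul_le_mul_of_nonneg_left (by linarith) (by positivity)
      _ = 64 * K * 2 ^ q / e * T ^ (e / 4) := by
        field_simp
        ring
      _ ≤ T ^ (e / 4) * T ^ (e / 4) := mul_le_mul_of_nonneg_right g4 h6.le
  exact eventually_atTop.1 hev

theorem window {K T : ℝ} (hK : 0 < K) (hT : 0 ≤ T)
    (hz : ∀ t : ℝ, ∀ S : Finset ℂ, (∀ s ∈ S, IsZ s) →
      ∑ s ∈ S, (mu s : ℝ) * (1 / (1 + (s.im - t) ^ 2)) ≤ K * Lg t)
    {F : Finset ℂ} {n : ℕ} (hF : ∀ ρ ∈ F, IsZ ρ ∧ 0 < ρ.im ∧ ρ.im ≤ T ∧ ⌊ρ.im⌋₊ = n) :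
    ∑ ρ ∈ F, (mu ρ : ℝ) ≤ 2 * K * Real.log (4 + T) := by
  classical
  rcases F.eq_empty_or_nonempty with rfl | ⟨ρ0, hρ0⟩
  · rw [Finset.sum_empty]
    have : 0 ≤ Real.log (4 + T) := Real.log_nonneg (by linarith)
    positivity
  · have h1 := hz n F fun ρ hρ => (hF ρ hρ).1
    obtain ⟨k1, k2, k3, k4⟩ := hF ρ0 hρ0
    have hnT : (n : ℝ) ≤ T := by
      rw [← k4]
      exact (Nat.floor_le k2.le).trans k3
    have h2 : Lg n ≤ Real.log (4 + T) := by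
      unfold Lg
      refine Real.log_le_log (by positivity) ?_
      rw [Nat.abs_cast]
      linarith
    have h3 : (1 / 2) * ∑ ρ ∈ F, (mu ρ : ℝ) ≤ ∑ s ∈ F, (mu s : ℝ) * (1 / (1 + (s.im - n) ^ 2)) := by
      rw [Finset.mul_sum]
      refine Finset.sum_le_sum fun ρ hρ => ?_
      obtain ⟨l1, l2, l3, l4⟩ := hF ρ hρ
      have l5 : (n : ℝ) ≤ ρ.im := by
        rw [← l4]
        exact Nat.floor_le l2.le
      have l6 : ρ.im < n + 1 := by
        rw [← l4]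
        exact Nat.lt_floor_add_one _
      rw [mul_comm]
      refine mul_le_mul_of_nonneg_left ?_ (Nat.cast_nonneg _)
      refine one_div_le_one_div_of_le (by positivity) ?_
      nlinarith
    have h4 : K * Lg n ≤ K * Real.log (4 + T) := mul_le_mul_of_nonneg_left h2 hK.le
    linarith

theorem bwd (h1 : S_A) {D : ℝ → ℝ} (hD : ContinuousOn D (Set.Ioc (1 / 2) 1))
    (hD0 : ∀ σ : ℝ, 1 / 2 < σ → σ ≤ 1 → 0 ≤ D σ)
    (h : ∀ σ e : ℝ, 1 / 2 < σ → σ ≤ 1 → 0 < e → ∃ l0 : ℝ, 0 < l0 ∧ ∀ l : ℝ, 0 < l → l ≤ l0 →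
      ∃ C0 : ℝ, ∀ C : ℝ, C0 ≤ C → ∃ A : ℝ, ∀ a : ℝ, A ≤ a → Few l C a (σ - 1 / 2) ((Ht C a) ^ (D σ + e)))
    {σ e : ℝ} (hσ : 1 / 2 < σ) (hσ1 : σ ≤ 1) (he : 0 < e) :
    ∃ T0 : ℝ, ∀ T : ℝ, T0 ≤ T → AtMost (Zr σ T) (T ^ (D σ + e)) := by
  classical
  obtain ⟨d, hd, hd'⟩ := near hD hσ hσ1 (show 0 < e / 4 by linarith)
  have hδ0 : 0 < d / 2 := by linarith
  obtain ⟨hs, hDs⟩ := hd' (d / 2) hδ0 (by linarith)
  set δ : ℝ := d / 2 with hδ
  obtain ⟨l0, hl0, hl⟩ := h (σ - δ) (e / 4) hs (by linarith) (by linarith)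
  set l : ℝ := min l0 1 with hldef
  have hlp : 0 < l := lt_min hl0 one_pos
  obtain ⟨Ca, hCa⟩ := hl l hlp (min_le_left _ _)
  obtain ⟨Cb, hCb⟩ := h1 δ l hδ0 hlp (min_le_right _ _)
  set C : ℝ := max (max Ca Cb) 1 with hCdef
  have hC0 : 0 < C := lt_of_lt_of_le one_pos (le_max_right _ _)
  obtain ⟨A1, hA1⟩ := hCa C ((le_max_left _ _).trans (le_max_left _ _))
  obtain ⟨A2, hA2⟩ := hCb C ((le_max_right _ _).trans (le_max_left _ _))
  obtain ⟨K, hK, hz⟩ := Pool.Agent.Y23.zsum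
  set q : ℝ := D σ + e / 2 with hq
  have hDσ := hD0 σ hσ hσ1
  have hDδ := hD0 (σ - δ) hs (by linarith)
  obtain ⟨T0, hT0⟩ := large (A1 := A1) (A2 := A2) (q := q) hC0 hK he
  refine ⟨T0, fun T hT F hF => ?_⟩
  obtain ⟨g1, g2, g3, g4⟩ := hT0 T hT
  have hTp : 0 < T := by linarith
  set a : ℝ := C * Real.log (T + 1) / 2 with ha
  have hHt : Ht C a = T + 1 := Ht_log hC0 (by linarith)
  have ha0 : 0 ≤ a := by
    have := Real.log_nonneg (show (1 : ℝ) ≤ T + 1 by linarith)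
    positivity
  have hFz : ∀ ρ ∈ F, IsZ ρ ∧ σ ≤ ρ.re ∧ 0 < ρ.im ∧ ρ.im ≤ T := by
    intro ρ hρ
    obtain ⟨k1, k2, k3, k4⟩ := mem_Zr.1 (hF ρ hρ)
    have k5 : ρ.re < 1 := by
      by_contra hc
      exact riemannZeta_ne_zero_of_one_le_re (not_lt.1 hc) k1
    exact ⟨⟨k1, by linarith, k5⟩, k2, k3, k4⟩
  have hpt : ∀ ρ ∈ F, ∃ t : ℝ, |t - ρ.im| ≤ 1 ∧ ∃ u : ℝ, a ≤ u ∧ u ≤ 2 * a ∧
      Real.exp (2 * a * (σ - δ - 1 / 2)) ≤ ‖E (l * a) t u‖ := by
    intro ρ hρ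
    obtain ⟨k1, k2, k3, k4⟩ := hFz ρ hρ
    obtain ⟨t, u, m1, m2, m3, m4⟩ := hA2 a g3 ⟨ρ, k1⟩ (by
      show 1 / 2 + δ ≤ ρ.re
      linarith) (by
      show |ρ.im| ≤ Ht C a
      rw [hHt, abs_of_pos k3]
      linarith)
    refine ⟨t, m1, u, m2, m3, le_trans (Real.exp_le_exp.2 ?_) m4⟩
    refine mul_le_mul_of_nonneg_left ?_ (by linarith)
    show σ - δ - 1 / 2 ≤ ρ.re - 1 / 2 - δ
    linarith
  choose! τ hτ1 hτ2 using hpt
  set F' : Finset ℕ := F.image fun ρ => ⌊ρ.im⌋₊ with hF'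
  have hr : ∀ n ∈ F', ∃ ρ ∈ F, ⌊ρ.im⌋₊ = n := fun n hn => Finset.mem_image.1 hn
  choose! r hr1 hr2 using hr
  have hτr : ∀ n ∈ F', (n : ℝ) - 1 ≤ τ (r n) ∧ τ (r n) < n + 2 := by
    intro n hn
    obtain ⟨k1, k2, k3, k4⟩ := hFz (r n) (hr1 n hn)
    have l4 := hr2 n hn
    have l5 := Nat.floor_le k3.le
    have l6 := Nat.lt_floor_add_one (r n).im
    rw [l4] at l5 l6
    have l7 := abs_le.1 (hτ1 (r n) (hr1 n hn))
    constructor <;> linarith
  set B : ℝ := (T + 1) ^ (D (σ - δ) + e / 4) with hB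
  have hfib : ∀ j : ℕ, ((F'.filter fun n => n % 4 = j).card : ℝ) ≤ B := by
    intro j
    have hsep : ∀ n ∈ F'.filter (fun n => n % 4 = j), ∀ n' ∈ F'.filter (fun n => n % 4 = j), n < n' →
        1 ≤ τ (r n') - τ (r n) := by
      intro n hn n' hn' hlt
      obtain ⟨k1, k2⟩ := Finset.mem_filter.1 hn
      obtain ⟨k3, k4⟩ := Finset.mem_filter.1 hn'
      have k5 : n + 4 ≤ n' := by omega
      have k6 : (n : ℝ) + 4 ≤ n' := by exact_mod_cast k5
      have k7 := hτr n k1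
      have k8 := hτr n' k3
      linarith
    have hsep2 : ∀ n ∈ F'.filter (fun n => n % 4 = j), ∀ n' ∈ F'.filter (fun n => n % 4 = j), n ≠ n' →
        1 ≤ |τ (r n) - τ (r n')| := by
      intro n hn n' hn' hne
      rcases lt_or_gt_of_ne hne with h3 | h3
      · have := hsep n hn n' hn' h3
        rw [abs_sub_comm]
        exact this.trans (le_abs_self _)
      · have := hsep n' hn' n hn h3
        exact this.trans (le_abs_self _)
    have hinj : ((F'.filter fun n => n % 4 = j : Finset ℕ) : Set ℕ).InjOn fun n => τ (r n) := by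
      intro n hn n' hn' hnn
      by_contra hne
      have := hsep2 n hn n' hn' hne
      simp only at hnn
      rw [hnn, sub_self, abs_zero] at this
      linarith
    rw [← Finset.card_image_of_injOn hinj]
    have := hA1 a g2 ((F'.filter fun n => n % 4 = j).image fun n => τ (r n)) (by
      intro x hx y hy hxy
      obtain ⟨n, hn, rfl⟩ := Finset.mem_image.1 hx
      obtain ⟨n', hn', rfl⟩ := Finset.mem_image.1 hy
      exact hsep2 n hn n' hn' fun hc => hxy (by rw [hc])) (by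
      intro t ht
      obtain ⟨n, hn, rfl⟩ := Finset.mem_image.1 ht
      have hn1 := (Finset.mem_filter.1 hn).1
      obtain ⟨k1, k2, k3, k4⟩ := hFz (r n) (hr1 n hn1)
      refine ⟨?_, hτ2 (r n) (hr1 n hn1)⟩
      have h3 := hτ1 (r n) (hr1 n hn1)
      have h5 := abs_sub_abs_le_abs_sub (τ (r n)) (r n).im
      rw [abs_of_pos k3] at h5
      rw [hHt]
      linarith)
    rw [hHt] at this
    exact this
  have hF'card : (F'.card : ℝ) ≤ 4 * B := by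
    have h3 : F'.card = ∑ j ∈ Finset.range 4, (F'.filter fun n => n % 4 = j).card :=
      Finset.card_eq_sum_card_fiberwise fun n _ => Finset.mem_coe.2 (Finset.mem_range.2 (Nat.mod_lt _ (by norm_num)))
    rw [h3]
    push_cast
    calc (∑ j ∈ Finset.range 4, ((F'.filter fun n => n % 4 = j).card : ℝ)) ≤ ∑ _j ∈ Finset.range 4, B :=
        Finset.sum_le_sum fun j _ => hfib j
      _ = 4 * B := by simp
  have hsum : ((∑ ρ ∈ F, analyticOrderNatAt riemannZeta ρ : ℕ) : ℝ) = ∑ ρ ∈ F, (mu ρ : ℝ) := by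
    push_cast
    rfl
  rw [hsum]
  have hlog : 0 ≤ Real.log (4 + T) := Real.log_nonneg (by linarith)
  have hmain : ∑ ρ ∈ F, (mu ρ : ℝ) ≤ F'.card * (2 * K * Real.log (4 + T)) := by
    have h3 : ∑ ρ ∈ F, (mu ρ : ℝ) = ∑ n ∈ F', ∑ ρ ∈ F.filter (fun ρ => ⌊ρ.im⌋₊ = n), (mu ρ : ℝ) :=
      (Finset.sum_fiberwise_of_maps_to (fun ρ hρ => Finset.mem_image_of_mem _ hρ) _).symm
    rw [h3]
    refine (Finset.sum_le_card_nsmul _ _ (2 * K * Real.log (4 + T)) fun n _ => ?_).trans (le_of_eq ?_)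
    · refine window (n := n) hK hTp.le hz fun ρ hρ => ?_
      obtain ⟨k1, k2⟩ := Finset.mem_filter.1 hρ
      obtain ⟨k3, _, k5, k6⟩ := hFz ρ k1
      exact ⟨k3, k5, k6, k2⟩
    · rw [nsmul_eq_mul]
  have hBq : B ≤ 2 ^ q * T ^ q := by
    rw [← Real.mul_rpow (by norm_num) hTp.le]
    have h3 : (T + 1) ^ (D (σ - δ) + e / 4) ≤ (2 * T) ^ (D (σ - δ) + e / 4) :=
      Real.rpow_le_rpow (by linarith) (by linarith) (by linarith)
    refine h3.trans (Real.rpow_le_rpow_of_exponent_le (by linarith) (by linarith))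
  have hTq : 0 < T ^ q := Real.rpow_pos_of_pos hTp _
  have e3 : T ^ (D σ + e) = T ^ (e / 2) * T ^ q := by
    rw [← Real.rpow_add hTp]
    congr 1
    rw [hq]
    ring
  rw [e3]
  have h5 : (F'.card : ℝ) ≤ 4 * (2 ^ q * T ^ q) := hF'card.trans (by linarith)
  calc ∑ ρ ∈ F, (mu ρ : ℝ) ≤ F'.card * (2 * K * Real.log (4 + T)) := hmain
    _ ≤ 4 * (2 ^ q * T ^ q) * (2 * K * Real.log (4 + T)) :=
      mul_le_mul_of_nonneg_right h5 (by positivity)
    _ = 8 * K * 2 ^ q * Real.log (4 + T) * T ^ q := by ring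
    _ ≤ T ^ (e / 2) * T ^ q := mul_le_mul_of_nonneg_right g4 hTq.le

/-- Dn -/
theorem dn (h1 : S_A) (h2 : S_B) : S_Dn := by
  intro D hD hD0
  constructor
  · intro h σ e hσ hσ1 he
    exact fwd h2 hD hD0 h hσ hσ1 he
  · intro h σ e hσ hσ1 he
    exact bwd h1 hD hD0 h hσ hσ1 he

end Pool.Agent.Q211.LV
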