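import Pool.Agent.Q211.LV.Sb

set_option autoImplicit false

/-! # Project LV, job Nr: a large value comes from a near zero -/

open Filter Topology Finset MeasureTheory

namespace Pool.Agent.Q211.LV

open Pool.Agent.Q240.LV
open Pool.Agent.Y23 (Zt mu Lg)
open Pool.Agent.Q240.SD (Ht)

lemma term_near {l a t u η δ : ℝ} (hl : 0 < l) (_hl1 : l ≤ 1) (ha0 : 0 < a) (ha : 2 ≤ l * a)
    (hu : 0 ≤ u) (hu2 : u ≤ 2 * a) (hη : δ ≤ η) (ρ : Zt)
    (h : |(ρ : ℂ).im - t| ≤ Real.sqrt (16 / l) → (ρ : ℂ).re - 1 / 2 < η - δ) :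
    ‖Complex.exp ((l * a : ℝ) * (((ρ : ℂ) - 1 / 2) - t * Complex.I) ^ 2 + u * ((ρ : ℂ) - 1 / 2))‖ ≤
      Real.exp (l * a / 4 + 2 * a * (η - δ)) * (1 / (1 + ((ρ : ℂ).im - t) ^ 2)) := by
  set w : ℂ := (ρ : ℂ) - 1 / 2 with hw
  have hre : |w.re| ≤ 1 / 2 := Pool.Agent.Y23.half_re ρ
  have him : w.im = (ρ : ℂ).im := by
    rw [hw]
    simp
  have hwre : w.re = (ρ : ℂ).re - 1 / 2 := by
    rw [hw]
    simp
  rw [Complex.norm_exp, re_gau, him]
  set y : ℝ := (ρ : ℂ).im - t with hy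
  set s : ℝ := l * a with hs
  have h4 : w.re ^ 2 ≤ 1 / 4 := by
    have := sq_le_sq' (by linarith [(abs_le.1 hre).1]) (abs_le.1 hre).2
    linarith
  have h6 : s * w.re ^ 2 ≤ s * (1 / 4) := mul_le_mul_of_nonneg_left h4 (by linarith)
  have h5 : s * (w.re ^ 2 - y ^ 2) + u * w.re ≤ (s / 4 + 2 * a * (η - δ)) + -(y ^ 2) := by
    by_cases hn : |y| ≤ Real.sqrt (16 / l)
    · have h1 := h hn
      rw [← hwre] at h1
      have h7 : u * w.re ≤ u * (η - δ) := mul_le_mul_of_nonneg_left h1.le hu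
      have h8 : u * (η - δ) ≤ 2 * a * (η - δ) := mul_le_mul_of_nonneg_right hu2 (by linarith)
      have h9 : 1 * y ^ 2 ≤ s * y ^ 2 := mul_le_mul_of_nonneg_right (by linarith) (sq_nonneg y)
      nlinarith
    · have h1 : 16 / l < y ^ 2 := by
        rw [← sq_abs]
        exact (Real.sqrt_lt' (lt_of_le_of_lt (Real.sqrt_nonneg _) (not_le.1 hn))).1 (not_le.1 hn)
      have h2 : 16 < l * y ^ 2 := by
        rw [div_lt_iff₀ hl] at h1
        linarith
      have h3 : 16 * a ≤ s * y ^ 2 := by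
        rw [hs]
        nlinarith
      have h7 : u * w.re ≤ u * (1 / 2) := mul_le_mul_of_nonneg_left (abs_le.1 hre).2 hu
      have h9 : 2 * y ^ 2 ≤ s * y ^ 2 := mul_le_mul_of_nonneg_right ha (sq_nonneg y)
      have h10 : 0 ≤ 2 * a * (η - δ) := mul_nonneg (by linarith) (by linarith)
      nlinarith
  refine (Real.exp_le_exp.2 h5).trans ?_
  rw [Real.exp_add, Real.exp_neg]
  refine mul_le_mul_of_nonneg_left ?_ (Real.exp_pos _).le
  rw [← one_div]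
  exact one_div_le_one_div_of_le (by positivity) (by
    have := Real.add_one_le_exp (y ^ 2)
    linarith)

lemma log_ht {a C t : ℝ} (ha : 0 ≤ a) (hC : 1 ≤ C) (ht : |t| ≤ Ht C a) :
    Real.log (3 + |t|) ≤ 2 + 2 * a := by
  have h1 : 2 * a / C ≤ 2 * a := div_le_self (by linarith) hC
  have h2 : Ht C a ≤ Real.exp (2 * a) := Real.exp_le_exp.2 h1
  have h3 : 1 ≤ Real.exp (2 * a) := Real.one_le_exp (by linarith)
  have h4 : 3 + |t| ≤ 4 * Real.exp (2 * a) := by linarith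
  have h5 : (4 : ℝ) ≤ Real.exp 2 := by
    have := Real.add_one_le_exp (1 : ℝ)
    have h6 : Real.exp 2 = Real.exp 1 * Real.exp 1 := by
      rw [← Real.exp_add]
      norm_num
    rw [h6]
    nlinarith
  have h7 : 3 + |t| ≤ Real.exp (2 + 2 * a) := by
    rw [Real.exp_add]
    refine h4.trans (mul_le_mul_of_nonneg_right h5 (Real.exp_pos _).le)
  have h8 : 0 < 3 + |t| := by positivity
  exact (Real.log_le_iff_le_exp h8).2 h7

lemma big {K δ a : ℝ} (hK : 0 < K) (hδ : 0 < δ) (ha1 : 1 ≤ a) (ha : 8 * K / δ ^ 2 < a) :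
    K * (2 + 2 * a) < Real.exp (δ * a) := by
  have h1 : 1 + δ * a + (δ * a) ^ 2 / 2 ≤ Real.exp (δ * a) :=
    Real.quadratic_le_exp_of_nonneg (by positivity)
  have h2 : 8 * K < a * δ ^ 2 := by
    rwa [div_lt_iff₀ (by positivity)] at ha
  have h3 : 8 * K * a ≤ (δ * a) ^ 2 := by nlinarith
  have h4 : 0 < δ * a := by positivity
  nlinarith

/-- Nr -/
theorem nr : S_Nr := by
  intro δ hδ
  obtain ⟨K, hK, hz⟩ := Pool.Agent.Y23.zsum_le
  refine ⟨min 1 δ, lt_min one_pos hδ, fun l hl hl0 => ?_⟩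
  have hl1 : l ≤ 1 := hl0.trans (min_le_left _ _)
  have hlδ : l ≤ δ := hl0.trans (min_le_right _ _)
  refine ⟨Real.sqrt (16 / l), 1, Real.sqrt_pos.2 (by positivity), fun C hC => ?_⟩
  refine ⟨max (2 / l) (max 1 (8 * K / δ ^ 2 + 1)), fun a t u η ha ht hau hua hη hS => ?_⟩
  have ha1 : 2 / l ≤ a := (le_max_left _ _).trans ha
  have ha2 : 1 ≤ a := ((le_max_left _ _).trans (le_max_right _ _)).trans ha
  have ha3 : 8 * K / δ ^ 2 < a := by
    have := ((le_max_right _ _).trans (le_max_right _ _)).trans ha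
    linarith
  have hs : 2 ≤ l * a := by
    rw [div_le_iff₀ hl] at ha1
    linarith
  by_contra hcon
  push Not at hcon
  have hu0 : 0 ≤ u := by linarith
  obtain ⟨K', hK', hb⟩ := sb
  have hsum := (hb (l * a) t u hs hu0).1
  have hle : ∀ ρ : Zt, (mu ρ : ℝ) *
      ‖Complex.exp ((l * a : ℝ) * (((ρ : ℂ) - 1 / 2) - t * Complex.I) ^ 2 + u * ((ρ : ℂ) - 1 / 2))‖ ≤
      Real.exp (l * a / 4 + 2 * a * (η - δ)) * ((mu ρ : ℝ) * (1 / (1 + ((ρ : ℂ).im - t) ^ 2))) := by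
    intro ρ
    refine (mul_le_mul_of_nonneg_left
      (term_near hl hl1 (by linarith) hs hu0 hua hη ρ (hcon ρ)) (Nat.cast_nonneg _)).trans (le_of_eq ?_)
    ring
  have hsum2 := (Pool.Agent.Y23.zsummable t).mul_left (Real.exp (l * a / 4 + 2 * a * (η - δ)))
  have hn : ∀ ρ : Zt, ‖(mu ρ : ℂ) *
      Complex.exp ((l * a : ℝ) * (((ρ : ℂ) - 1 / 2) - t * Complex.I) ^ 2 + u * ((ρ : ℂ) - 1 / 2))‖ =
      (mu ρ : ℝ) *
      ‖Complex.exp ((l * a : ℝ) * (((ρ : ℂ) - 1 / 2) - t * Complex.I) ^ 2 + u * ((ρ : ℂ) - 1 / 2))‖ := by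
    intro ρ
    rw [norm_mul, Complex.norm_natCast]
  have h1 : ‖S (l * a) t u‖ ≤ ∑' ρ : Zt, (mu ρ : ℝ) *
      ‖Complex.exp ((l * a : ℝ) * (((ρ : ℂ) - 1 / 2) - t * Complex.I) ^ 2 + u * ((ρ : ℂ) - 1 / 2))‖ := by
    unfold S
    refine (norm_tsum_le_tsum_norm (hsum.congr fun ρ => (hn ρ).symm)).trans (le_of_eq ?_)
    exact tsum_congr hn
  have h2 := h1.trans (hsum.tsum_le_tsum hle hsum2)
  rw [tsum_mul_left] at h2
  have h3 := h2.trans (mul_le_mul_of_nonneg_left (hz t) (Real.exp_pos _).le)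
  have h4 : Lg t ≤ 2 + 2 * a := log_ht (by linarith) hC ht
  have h5 : K * Lg t ≤ K * (2 + 2 * a) := mul_le_mul_of_nonneg_left h4 hK.le
  have h6 := big hK hδ ha2 ha3
  have h7 : Real.exp (2 * a * η) < Real.exp (l * a / 4 + 2 * a * (η - δ)) * Real.exp (δ * a) :=
    (hS.trans h3).trans_lt (mul_lt_mul_of_pos_left (h5.trans_lt h6) (Real.exp_pos _))
  rw [← Real.exp_add] at h7
  have h8 := Real.exp_lt_exp.1 h7
  nlinarith

end Pool.Agent.Q211.LV
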