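import Pool.Agent.Q240.LV.Stm

set_option autoImplicit false

/-! # Project LV, job Sb: absolute convergence and size of the smoothed sum over the zeros -/

open Filter Topology Finset MeasureTheory

namespace Pool.Agent.Q211.LV

open Pool.Agent.Q240.LV
open Pool.Agent.Y23 (Zt mu Lg)

lemma re_gau (s t u : ℝ) (w : ℂ) :
    (s * (w - t * Complex.I) ^ 2 + u * w : ℂ).re = s * (w.re ^ 2 - (w.im - t) ^ 2) + u * w.re := by
  simp [pow_two]

lemma term_le {s t u : ℝ} (hs : 2 ≤ s) (hu : 0 ≤ u) (ρ : Zt) :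
    ‖Complex.exp (s * (((ρ : ℂ) - 1 / 2) - t * Complex.I) ^ 2 + u * ((ρ : ℂ) - 1 / 2))‖ ≤
      Real.exp (s / 4 + u / 2) * (1 / (1 + ((ρ : ℂ).im - t) ^ 2)) := by
  set w : ℂ := (ρ : ℂ) - 1 / 2 with hw
  have hre : |w.re| ≤ 1 / 2 := Pool.Agent.Y23.half_re ρ
  have him : w.im = (ρ : ℂ).im := by
    rw [hw]
    simp
  rw [Complex.norm_exp, re_gau, him]
  set y : ℝ := (ρ : ℂ).im - t with hy
  have h4 : w.re ^ 2 ≤ 1 / 4 := by
    have := sq_le_sq' (by linarith [(abs_le.1 hre).1]) (abs_le.1 hre).2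
    linarith
  have h5 : s * (w.re ^ 2 - y ^ 2) + u * w.re ≤ (s / 4 + u / 2) + -(y ^ 2) := by
    have h6 : s * w.re ^ 2 ≤ s * (1 / 4) := mul_le_mul_of_nonneg_left h4 (by linarith)
    have h7 : u * w.re ≤ u * (1 / 2) := mul_le_mul_of_nonneg_left (abs_le.1 hre).2 hu
    have h8 : 1 * y ^ 2 ≤ s * y ^ 2 := mul_le_mul_of_nonneg_right (by linarith) (sq_nonneg y)
    nlinarith
  refine (Real.exp_le_exp.2 h5).trans ?_
  rw [Real.exp_add, Real.exp_neg]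
  refine mul_le_mul_of_nonneg_left ?_ (Real.exp_pos _).le
  rw [← one_div]
  exact one_div_le_one_div_of_le (by positivity) (by
    have := Real.add_one_le_exp (y ^ 2)
    linarith)

/-- Sb -/
theorem sb : S_Sb := by
  obtain ⟨K, hK, hz⟩ := Pool.Agent.Y23.zsum_le
  refine ⟨K, hK, fun s t u hs hu => ?_⟩
  have hle : ∀ ρ : Zt, (mu ρ : ℝ) *
      ‖Complex.exp (s * (((ρ : ℂ) - 1 / 2) - t * Complex.I) ^ 2 + u * ((ρ : ℂ) - 1 / 2))‖ ≤
      Real.exp (s / 4 + u / 2) * ((mu ρ : ℝ) * (1 / (1 + ((ρ : ℂ).im - t) ^ 2))) := by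
    intro ρ
    refine (mul_le_mul_of_nonneg_left (term_le hs hu ρ) (Nat.cast_nonneg _)).trans (le_of_eq ?_)
    ring
  have hsum := (Pool.Agent.Y23.zsummable t).mul_left (Real.exp (s / 4 + u / 2))
  have hS : Summable fun ρ : Zt => (mu ρ : ℝ) *
      ‖Complex.exp (s * (((ρ : ℂ) - 1 / 2) - t * Complex.I) ^ 2 + u * ((ρ : ℂ) - 1 / 2))‖ :=
    Summable.of_nonneg_of_le (fun ρ => by positivity) hle hsum
  refine ⟨hS, ?_⟩
  have hn : ∀ ρ : Zt, ‖(mu ρ : ℂ) *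
      Complex.exp (s * (((ρ : ℂ) - 1 / 2) - t * Complex.I) ^ 2 + u * ((ρ : ℂ) - 1 / 2))‖ =
      (mu ρ : ℝ) *
      ‖Complex.exp (s * (((ρ : ℂ) - 1 / 2) - t * Complex.I) ^ 2 + u * ((ρ : ℂ) - 1 / 2))‖ := by
    intro ρ
    rw [norm_mul, Complex.norm_natCast]
  have h1 : ‖S s t u‖ ≤ ∑' ρ : Zt, (mu ρ : ℝ) *
      ‖Complex.exp (s * (((ρ : ℂ) - 1 / 2) - t * Complex.I) ^ 2 + u * ((ρ : ℂ) - 1 / 2))‖ := by
    unfold S
    refine (norm_tsum_le_tsum_norm (hS.congr fun ρ => (hn ρ).symm)).trans (le_of_eq ?_)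
    exact tsum_congr hn
  refine h1.trans ((hS.tsum_le_tsum hle hsum).trans ?_)
  rw [tsum_mul_left]
  have h2 := mul_le_mul_of_nonneg_left (hz t) (show (0 : ℝ) ≤ Real.exp (s / 4 + u / 2) by positivity)
  refine h2.trans (le_of_eq ?_)
  unfold Lg
  ring

end Pool.Agent.Q211.LV
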